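import Pool.Agent.Q60.PW.Main

/-! P=W for products of groups: Q2 implies Q1, and a Littlewood–Offord law. -/

set_option autoImplicit false

namespace Pool.Agent.Results.MP_65ad7c_ag.ProductGroups

open Pool.Agent.Q60.PW

universe u v w

/-- `T` is the intersection cohomology of the moduli spaces of a variety `X` for a class of groups
closed under products. -/
theorem result {K : Type w} [Field K] (T : PWTheory.{u, v, w} K) :
    ((∀ G, T.Q2 G) → ∀ G, T.Q1 G) ∧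
    ∀ (n : ℕ) (G : Fin (n + 1) → T.Grp),
      (T.Q1 (T.prods n G) ↔ ∀ i, T.Q1 (G i)) ∧
      (T.Q2 (T.prods n G) ↔ (∀ i, T.Q2 (G i)) ∧ ∀ i j, i ≠ j → T.Q1 (G i) ∨ T.Q1 (G j)) ∧
      ((T.Q1 (T.prods n G) ∧ T.Q2 (T.prods n G)) ↔
        (T.IH (T.prods n G)).share 0 = T.dim (T.prods n G)) ∧
      ∀ (F : Finset (Fin (n + 1))) (b : ℝ), F.Nonempty →
        (∀ i ∈ F, ¬ (T.Q1 (G i) ∧ T.Q2 (G i)) ∧ (T.dim (G i) : ℝ) ≤ b) → ∀ s : ℤ,
        ((T.IH (T.prods n G)).share s : ℝ) ≤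
          √(b / (2 * ((F.card : ℝ) + 1))) * T.dim (T.prods n G) := by
  refine ⟨T.q1_of_q2, fun n G => ⟨T.q1_prods n G, T.q2_prods n G, T.both_iff_share _,
    fun F b hF h s => ?_⟩⟩
  rw [T.dim_prods n G, Nat.cast_prod]
  exact T.share_prods n G F hF (fun i hi => (h i hi).1) (fun i hi => (h i hi).2) s

end Pool.Agent.Results.MP_65ad7c_ag.ProductGroups
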